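import Pool.Agent.V11225.MV.Final

/-!
# Shortest Path Most Vital Edges is `W[1]`-hard with respect to the number of deleted edges

An instance `(T, (s, t), (k, l))` consists of a matrix `T` of edge lengths (numbers in binary), two
vertices `s`, `t`, the budget `k` and the length `l`.
-/

namespace Pool.Agent.Results.MP_40aef2_lc.MostVitalEdgesW1Hard

open Pool.Agent.NPC Pool.Agent.H633R2 Pool.Agent.V11225.MV

/-- **Shortest Path Most Vital Edges is `W[1]`-hard with respect to the number `k` of deleted
edges, even if all edge lengths are at most four times the number of vertices. So it is not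
fixed-parameter tractable with respect to `k`, unless all problems in `W[1]` are.** -/
theorem result :
    W1Hard (fun I : List (List ℕ) × (ℕ × ℕ) × (ℕ × ℕ) => I.2.2.1) SPMVE ∧
    W1Hard (fun I : List (List ℕ) × (ℕ × ℕ) × (ℕ × ℕ) => I.2.2.1)
      (fun I => (∀ r ∈ I.1, ∀ w ∈ r, w ≤ 4 * I.1.length) ∧ SPMVE I) ∧
    (IsFpt (fun I : List (List ℕ) × (ℕ × ℕ) × (ℕ × ℕ) => I.2.2.1) SPMVE →
      ∀ (α : Type) [TEnc α] (κ : α → ℕ) (P : α → Prop), InW1 κ P → IsFpt κ P) :=
  ⟨w1Hard, w1Hard_small, fun h _ _ _ _ hP => w1Hard.collapse h hP⟩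

end Pool.Agent.Results.MP_40aef2_lc.MostVitalEdgesW1Hard
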